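import Pool.Agent.H85.LK.Targets

/-!
# MP_8f7db2_an: module COR, the correlation estimate
-/

set_option autoImplicit false

open MeasureTheory Metric Set ProbabilityTheory
open scoped ENNReal

namespace Pool.Agent.H58.LK

open Pool.Agent.H85.LK

theorem gauss_tail (t : ℝ) (ht : 0 ≤ t) :
    (gaussianReal 0 1).real {w : ℝ | t ≤ w} ≤ Real.exp (-(t ^ 2 / 2)) := by
  have h1 := measure_ge_le_exp_mul_mgf (X := id) (μ := gaussianReal 0 1) (t := t) t ht
    (by simpa using integrable_exp_mul_gaussianReal t)
  rw [mgf_id_gaussianReal] at h1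
  refine h1.trans (le_of_eq ?_)
  rw [← Real.exp_add]
  refine congrArg Real.exp ?_
  simp
  ring

theorem pf_COR (hGV : T_GV) (hCHP : T_CHP) : T_COR := by
  intro n b l u u' hb hl hu hu'
  have hb0 : 0 < b := by linarith
  obtain ⟨hχm, -, hχ0, hχs, ⟨M, hM⟩, -⟩ := hCHP b l hb0 hl
  set κ : ℝ := inner ℝ u u' with hκ
  set q : ℝ := Real.sqrt (1 - κ ^ 2) with hq
  have hq0 : 0 ≤ q := Real.sqrt_nonneg _
  have hq1 : q ≤ 1 := by
    rw [hq]
    exact Real.sqrt_le_one.2 (by nlinarith [sq_nonneg κ])
  have hbl : 0 < b + l := by linarith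
  -- integrability of the square of the profile
  have hint : Integrable (fun z => chi b l z ^ 2) (gaussianReal 0 1) := by
    refine Integrable.of_bound (C := M ^ 2) (hχm.pow_const 2).aestronglyMeasurable ?_
    refine Filter.Eventually.of_forall fun z => ?_
    rw [Real.norm_eq_abs, abs_of_nonneg (by positivity)]
    exact pow_le_pow_left₀ (hχ0 z) (hM z).1 2
  have hM2 : 0 ≤ M2 b l := integral_nonneg fun z => by positivity
  -- the law of the pair
  set F : ℝ × ℝ → ℝ := fun p => ({y : ℝ | b < y}.indicator (fun _ => (1 : ℝ)) p.2) *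
    chi b l p.1 ^ 2 with hF
  have hind : Measurable ({y : ℝ | b < y}.indicator (fun _ => (1 : ℝ))) :=
    measurable_const.indicator (measurableSet_lt measurable_const measurable_id)
  have hFm : Measurable F :=
    (hind.comp measurable_snd).mul ((hχm.comp measurable_fst).pow_const 2)
  have h1 : ∫ c, ({c : E n | b < inner ℝ c u'}.indicator (fun _ => (1 : ℝ)) c) *
      chi b l (inner ℝ c u) ^ 2 ∂(stdGaussian (E n)) =
      ∫ p : ℝ × ℝ, F (p.1, κ * p.1 + q * p.2) ∂((gaussianReal 0 1).prod (gaussianReal 0 1)) := by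
    have hm1 : Measurable fun c : E n => ((inner ℝ c u : ℝ), (inner ℝ c u' : ℝ)) := by fun_prop
    have hm2 : Measurable fun p : ℝ × ℝ => (p.1, κ * p.1 + q * p.2) := by fun_prop
    have h2 := integral_map (μ := stdGaussian (E n)) hm1.aemeasurable
      (f := F) hFm.aestronglyMeasurable
    rw [hGV n u u' hu hu'] at h2
    have h3 := integral_map (μ := (gaussianReal 0 1).prod (gaussianReal 0 1)) hm2.aemeasurable
      (f := F) hFm.aestronglyMeasurable
    rw [h3] at h2
    rw [h2]
    rfl
  rw [h1]
  have hF0 : ∀ p, 0 ≤ F p := by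
    intro p
    refine mul_nonneg (indicator_nonneg (fun _ _ => zero_le_one) _) (by positivity)
  have hχle : ∀ p : ℝ × ℝ, F p ≤ chi b l p.1 ^ 2 := by
    intro p
    refine mul_le_of_le_one_left (by positivity) ?_
    by_cases hp : p.2 ∈ {y : ℝ | b < y}
    · rw [indicator_of_mem hp]
    · rw [indicator_of_notMem hp]
      exact zero_le_one
  rcases lt_or_ge (1 / (b + l) ^ 2) κ with hk | hk
  · -- large correlation
    have h2 : 1 ≤ (b + l) ^ 4 * κ ^ 2 := by
      have h3 : 1 < κ * (b + l) ^ 2 := by
        rw [div_lt_iff₀ (by positivity)] at hk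
        exact hk
      have h4 : (b + l) ^ 4 * κ ^ 2 = (κ * (b + l) ^ 2) ^ 2 := by ring
      rw [h4]
      nlinarith
    have h3 : ∫ p : ℝ × ℝ, F (p.1, κ * p.1 + q * p.2)
        ∂((gaussianReal 0 1).prod (gaussianReal 0 1)) ≤
        ∫ p : ℝ × ℝ, chi b l p.1 ^ 2 * 1 ∂((gaussianReal 0 1).prod (gaussianReal 0 1)) := by
      refine integral_mono_of_nonneg (Filter.Eventually.of_forall fun p => hF0 _)
        (Integrable.mul_prod hint (integrable_const (1 : ℝ)))
        (Filter.Eventually.of_forall fun p => ?_)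
      show F (p.1, κ * p.1 + q * p.2) ≤ chi b l p.1 ^ 2 * 1
      rw [mul_one]
      exact hχle _
    have h4 : ∫ p : ℝ × ℝ, chi b l p.1 ^ 2 * 1 ∂((gaussianReal 0 1).prod (gaussianReal 0 1)) =
        M2 b l := by
      have h5 := integral_prod_mul (μ := gaussianReal 0 1) (ν := gaussianReal 0 1)
        (fun z => chi b l z ^ 2) (fun _ : ℝ => (1 : ℝ))
      rw [h5]
      simp [M2]
    rw [h4] at h3
    refine h3.trans ?_
    refine le_mul_of_one_le_right hM2 ?_
    have := Real.exp_pos (1 - b ^ 2 / 2)
    linarith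
  · -- small correlation
    set t : ℝ := b - 1 / (b + l) with ht
    have hinv : 1 / (b + l) ≤ 1 := by
      rw [div_le_one hbl]
      linarith
    have ht0 : 0 ≤ t := by linarith
    have hpt : ∀ p : ℝ × ℝ, F (p.1, κ * p.1 + q * p.2) ≤
        chi b l p.1 ^ 2 * ({w : ℝ | t ≤ w}.indicator (fun _ => (1 : ℝ)) p.2) := by
      intro p
      have hrhs : 0 ≤ chi b l p.1 ^ 2 * ({w : ℝ | t ≤ w}.indicator (fun _ => (1 : ℝ)) p.2) :=
        mul_nonneg (by positivity) (indicator_nonneg (fun _ _ => zero_le_one) _)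
      by_cases hz : chi b l p.1 = 0
      · have h2 : F (p.1, κ * p.1 + q * p.2) = 0 := by
          simp only [hF, hz]
          ring
        rw [h2]
        exact hrhs
      · by_cases hy : b < κ * p.1 + q * p.2
        · obtain ⟨h2, h3⟩ := hχs p.1 hz
          have h4 : κ * p.1 ≤ 1 / (b + l) := by
            rcases le_total κ 0 with h5 | h5
            · have h6 : κ * p.1 ≤ 0 := mul_nonpos_of_nonpos_of_nonneg h5 (by linarith)
              have h7 : 0 ≤ 1 / (b + l) := by positivity
              linarith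
            · calc κ * p.1 ≤ 1 / (b + l) ^ 2 * (b + l) :=
                    mul_le_mul hk h3.le (by linarith) (by positivity)
                _ = 1 / (b + l) := by
                    field_simp
          have h5 : t < q * p.2 := by
            rw [ht]
            linarith
          have h6 : 0 < p.2 := by
            by_contra hcon
            have : q * p.2 ≤ 0 := mul_nonpos_of_nonneg_of_nonpos hq0 (not_lt.1 hcon)
            linarith
          have h7 : t ≤ p.2 := by nlinarith
          rw [indicator_of_mem (show p.2 ∈ {w : ℝ | t ≤ w} from h7), mul_one]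
          exact hχle _
        · have h2 : F (p.1, κ * p.1 + q * p.2) = 0 := by
            simp only [hF]
            rw [indicator_of_notMem (show (κ * p.1 + q * p.2) ∉ {y : ℝ | b < y} from hy), zero_mul]
          rw [h2]
          exact hrhs
    have hint2 : Integrable ({w : ℝ | t ≤ w}.indicator (fun _ => (1 : ℝ))) (gaussianReal 0 1) :=
      (integrable_const (1 : ℝ)).indicator (measurableSet_le measurable_const measurable_id)
    have h3 : ∫ p : ℝ × ℝ, F (p.1, κ * p.1 + q * p.2)
        ∂((gaussianReal 0 1).prod (gaussianReal 0 1)) ≤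
        ∫ p : ℝ × ℝ, chi b l p.1 ^ 2 * ({w : ℝ | t ≤ w}.indicator (fun _ => (1 : ℝ)) p.2)
          ∂((gaussianReal 0 1).prod (gaussianReal 0 1)) :=
      integral_mono_of_nonneg (Filter.Eventually.of_forall fun p => hF0 _)
        (Integrable.mul_prod hint hint2) (Filter.Eventually.of_forall hpt)
    have h4 : ∫ p : ℝ × ℝ, chi b l p.1 ^ 2 * ({w : ℝ | t ≤ w}.indicator (fun _ => (1 : ℝ)) p.2)
          ∂((gaussianReal 0 1).prod (gaussianReal 0 1)) =
        M2 b l * (gaussianReal 0 1).real {w : ℝ | t ≤ w} := by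
      have h5 := integral_prod_mul (μ := gaussianReal 0 1) (ν := gaussianReal 0 1)
        (fun z => chi b l z ^ 2) ({w : ℝ | t ≤ w}.indicator (fun _ => (1 : ℝ)))
      have h8 : MeasurableSet {w : ℝ | t ≤ w} := measurableSet_le measurable_const measurable_id
      rw [h5, integral_indicator h8]
      simp [M2]
    rw [h4] at h3
    have h5 := gauss_tail t ht0
    have h6 : Real.exp (-(t ^ 2 / 2)) ≤ Real.exp (1 - b ^ 2 / 2) := by
      refine Real.exp_le_exp.2 ?_
      have h7 : b * (1 / (b + l)) ≤ 1 := by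
        rw [mul_one_div, div_le_one hbl]
        linarith
      have h8 : t ^ 2 = b ^ 2 - 2 * (b * (1 / (b + l))) + (1 / (b + l)) ^ 2 := by
        rw [ht]
        ring
      nlinarith [sq_nonneg (1 / (b + l))]
    refine h3.trans (mul_le_mul_of_nonneg_left ?_ hM2)
    have h7 : 0 ≤ (b + l) ^ 4 * κ ^ 2 := by positivity
    linarith

end Pool.Agent.H58.LK
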