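import Pool.Agent.H85.LK.Targets

/-!
# MP_8f7db2_an: module FKL, the discrete Faber-Krahn inequality, scale invariant
-/

set_option autoImplicit false

open MeasureTheory Metric Set ProbabilityTheory
open scoped ENNReal

namespace Pool.Agent.H58.LK

open Pool.Agent.H85.LK

theorem pf_FKL (hRP : T_RP) (hPWR : T_PWR) (hCNV : T_CNV) (hSCQ : T_SCQ) : T_FKL := by
  intro N K hN hK
  obtain ⟨s₀, hs₀, hRP⟩ := hRP N K hN hK
  refine ⟨s₀, hs₀, fun ρ s A v hρ hs hss hA hAb hvol hv => ?_⟩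
  have hρ2 : 0 < ρ ^ 2 := by positivity
  set s' : ℝ := s / ρ ^ 2 with hs'
  have hs'0 : 0 < s' := by positivity
  have hs's : s' ≤ s₀ := by
    rw [hs', div_le_iff₀ hρ2]
    exact hss
  obtain ⟨hτ, hball⟩ := hRP s' hs'0 hs's
  set A' : Set (E N) := (fun x => ρ • x) ⁻¹' A with hA'
  set v' : E N → ℝ := fun x => v (ρ • x) with hv'
  have hmeas : Measurable fun x : E N => ρ • x := measurable_const_smul ρ
  have hA'm : MeasurableSet A' := hmeas hA
  have hA'b : Bornology.IsBounded A' := by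
    obtain ⟨R, hR⟩ := hAb.exists_norm_le
    rw [isBounded_iff_forall_norm_le]
    refine ⟨R / ρ, fun x hx => ?_⟩
    have h1 : ‖ρ • x‖ ≤ R := hR _ hx
    rw [norm_smul, Real.norm_eq_abs, abs_of_pos hρ] at h1
    rw [le_div_iff₀ hρ, mul_comm]
    exact h1
  have hv'B : Bd A' v' := by
    obtain ⟨h1, ⟨M, hM⟩, h3⟩ := hv
    exact ⟨h1.comp hmeas, ⟨M, fun x => hM _⟩, fun x hx => h3 _ hx⟩
  have hvol' : volume A' ≤ volume (ball (0 : E N) 1) := by
    have h1 : ball (0 : E N) 1 = (fun x => ρ • x) ⁻¹' ball (0 : E N) ρ := by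
      ext x
      simp only [mem_ball, dist_zero_right, mem_preimage, norm_smul, Real.norm_eq_abs,
        abs_of_pos hρ]
      constructor
      · intro h
        nlinarith
      · intro h
        by_contra hcon
        nlinarith
    rw [h1, hA', Measure.addHaar_preimage_smul volume hρ.ne',
      Measure.addHaar_preimage_smul volume hρ.ne']
    exact mul_le_mul_right hvol _
  have hQ := hPWR N s' (1 - s' * K) A' v' hs'0 hτ hA'm hA'b hv'B
    (fun m => hCNV N s' 1 A' m hN hs'0 one_pos hA'm hA'b hvol') hball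
  obtain ⟨h1, h2⟩ := hSCQ N s ρ v hs hρ
  have hρN : 0 ≤ ρ ^ N := by positivity
  have h3 : Qf N s v ≤ (1 - s' * K) * ∫ x, v x ^ 2 := by
    rw [h1, h2]
    calc ρ ^ N * Qf N (s / ρ ^ 2) (fun x => v (ρ • x))
        ≤ ρ ^ N * ((1 - s' * K) * ∫ x, v' x ^ 2) := mul_le_mul_of_nonneg_left hQ hρN
      _ = (1 - s' * K) * (ρ ^ N * ∫ x, v (ρ • x) ^ 2) := by ring
  rw [le_div_iff₀ hs]
  have h4 : K / ρ ^ 2 * (∫ x, v x ^ 2) * s = s' * K * ∫ x, v x ^ 2 := by
    rw [hs']
    field_simp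
  rw [h4]
  linarith

end Pool.Agent.H58.LK
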