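import Pool.Agent.H85.LK.Targets

/-!
# MP_8f7db2_an: module PVO, polarization preserves the volume
-/

set_option autoImplicit false

open MeasureTheory Metric Set ProbabilityTheory
open scoped ENNReal

namespace Pool.Agent.H58.LK

open Pool.Agent.H85.LK

variable {N : ℕ}

/-- linear part of the reflection -/
noncomputable def linRefl (e : E N) : E N →ₗ[ℝ] E N where
  toFun x := x - (2 * inner ℝ x e) • e
  map_add' x y := by
    rw [inner_add_left, mul_add, add_smul]
    abel
  map_smul' c x := by
    rw [real_inner_smul_left, RingHom.id_apply, smul_sub, smul_smul]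
    ring_nf

theorem linRefl_norm (e : E N) (he : ‖e‖ = 1) (x : E N) : ‖linRefl e x‖ = ‖x‖ := by
  have h1 : ‖linRefl e x‖ ^ 2 = ‖x‖ ^ 2 := by
    show ‖x - (2 * inner ℝ x e) • e‖ ^ 2 = ‖x‖ ^ 2
    rw [norm_sub_sq_real, real_inner_smul_right, norm_smul, he, mul_one, Real.norm_eq_abs, sq_abs]
    ring
  have h2 := congrArg Real.sqrt h1
  rwa [Real.sqrt_sq (norm_nonneg _), Real.sqrt_sq (norm_nonneg _)] at h2

/-- the linear isometry -/
noncomputable def isoRefl (e : E N) (he : ‖e‖ = 1) : E N ≃ₗᵢ[ℝ] E N :=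
  LinearIsometry.toLinearIsometryEquiv ⟨linRefl e, linRefl_norm e he⟩ rfl

theorem refl_eq (e : E N) (he : ‖e‖ = 1) (h : ℝ) :
    refl e h = fun x => isoRefl e he x + (2 * h) • e := by
  funext x
  show x - (2 * (inner ℝ x e - h)) • e = (x - (2 * inner ℝ x e) • e) + (2 * h) • e
  rw [mul_sub, sub_smul]
  abel

theorem refl_mp (e : E N) (he : ‖e‖ = 1) (h : ℝ) :
    MeasurePreserving (refl e h) (volume : Measure (E N)) volume := by
  rw [refl_eq e he h]
  exact (measurePreserving_add_right volume ((2 * h) • e)).comp (isoRefl e he).measurePreserving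

theorem refl_inner (e : E N) (he : ‖e‖ = 1) (h : ℝ) (x : E N) :
    inner ℝ (refl e h x) e = 2 * h - inner ℝ x e := by
  unfold H85.LK.refl
  rw [inner_sub_left, real_inner_smul_left, real_inner_self_eq_norm_sq, he]
  ring

theorem refl_refl (e : E N) (he : ‖e‖ = 1) (h : ℝ) (x : E N) : refl e h (refl e h x) = x := by
  have h1 := refl_inner e he h x
  rw [H85.LK.refl.eq_1 e h (refl e h x), h1]
  unfold H85.LK.refl
  have h2 : (2 * (2 * h - inner ℝ x e - h)) = -(2 * (inner ℝ x e - h)) := by ring
  rw [h2, neg_smul]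
  abel

theorem refl_norm (e : E N) (he : ‖e‖ = 1) (h : ℝ) (x : E N) :
    ‖refl e h x‖ ^ 2 = ‖x‖ ^ 2 - 4 * h * (inner ℝ x e - h) := by
  unfold H85.LK.refl
  rw [norm_sub_sq_real, real_inner_smul_right, norm_smul, he, mul_one, Real.norm_eq_abs, sq_abs]
  ring

theorem pf_PVO : T_PVO := by
  intro N e h ρ A he hh hA hAρ
  have hσm : Measurable (refl e h) := (refl_mp e he h).measurable
  have him : Measurable fun x : E N => (inner ℝ x e : ℝ) := by fun_prop
  set H : Set (E N) := {x | inner ℝ x e < h} with hH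
  have hHm : MeasurableSet H := measurableSet_lt him measurable_const
  set B : Set (E N) := refl e h ⁻¹' A with hB
  have hBm : MeasurableSet B := hσm hA
  have hpol : pol e h A = (H ∩ (A ∪ B)) ∪ (Hᶜ ∩ (A ∩ B)) := by
    ext x
    simp only [pol, mem_setOf_eq, mem_union, mem_inter_iff, mem_compl_iff, hH, hB, mem_preimage,
      not_lt]
  have hm : MeasurableSet (pol e h A) := by
    rw [hpol]
    exact (hHm.inter (hA.union hBm)).union (hHm.compl.inter (hA.inter hBm))
  refine ⟨hm, ?_, ?_⟩
  · rintro x (⟨h1, h2 | h2⟩ | ⟨-, h2, -⟩)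
    · exact hAρ h2
    · have h3 := hAρ h2
      rw [mem_ball, dist_zero_right] at h3 ⊢
      have h4 := refl_norm e he h x
      have h5 : ‖x‖ ^ 2 ≤ ‖refl e h x‖ ^ 2 := by
        rw [h4]
        nlinarith
      have h6 : ‖x‖ ≤ ‖refl e h x‖ := le_of_sq_le_sq h5 (norm_nonneg _)
      linarith
    · exact hAρ h2
  · -- the two exchanged parts
    have hex : volume (H ∩ (B \ A)) = volume (Hᶜ ∩ (A \ B)) := by
      have h1 : Hᶜ ∩ (A \ B) = refl e h ⁻¹' (H ∩ (B \ A)) := by
        ext x
        simp only [mem_inter_iff, mem_compl_iff, mem_diff, hH, hB, mem_preimage, mem_setOf_eq,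
          not_lt, refl_inner e he h x, refl_refl e he h x]
        constructor
        · rintro ⟨h1, h2, h3⟩
          refine ⟨?_, h2, h3⟩
          rcases lt_or_eq_of_le h1 with h4 | h4
          · linarith
          · exfalso
            apply h3
            have h5 : refl e h x = x := by
              unfold H85.LK.refl
              rw [← h4]
              simp
            rw [h5]
            exact h2
        · rintro ⟨h1, h2, h3⟩
          exact ⟨by linarith, h2, h3⟩
      rw [h1, (refl_mp e he h).measure_preimage (hHm.inter (hBm.diff hA)).nullMeasurableSet]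
    have h1 : volume (pol e h A) = volume (H ∩ (A ∪ B)) + volume (Hᶜ ∩ (A ∩ B)) := by
      rw [hpol]
      refine measure_union ?_ (hHm.compl.inter (hA.inter hBm))
      rw [Set.disjoint_left]
      rintro x ⟨h2, -⟩ ⟨h3, -⟩
      exact h3 h2
    have h2 : volume (H ∩ (A ∪ B)) = volume (H ∩ A) + volume (H ∩ (B \ A)) := by
      rw [← measure_union ?_ (hHm.inter (hBm.diff hA))]
      · rw [← inter_union_distrib_left, union_diff_self]
      · rw [Set.disjoint_left]
        rintro x ⟨-, h3⟩ ⟨-, -, h4⟩
        exact h4 h3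
    have h3 : volume (Hᶜ ∩ A) = volume (Hᶜ ∩ (A \ B)) + volume (Hᶜ ∩ (A ∩ B)) := by
      rw [← measure_union ?_ (hHm.compl.inter (hA.inter hBm))]
      · rw [← inter_union_distrib_left, diff_union_inter]
      · rw [Set.disjoint_left]
        rintro x ⟨-, -, h4⟩ ⟨-, -, h5⟩
        exact h4 h5
    have h4 : volume A = volume (H ∩ A) + volume (Hᶜ ∩ A) := by
      rw [← measure_union ?_ (hHm.compl.inter hA)]
      · rw [← union_inter_distrib_right, union_compl_self, univ_inter]
      · rw [Set.disjoint_left]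
        rintro x ⟨h5, -⟩ ⟨h6, -⟩
        exact h6 h5
    rw [h1, h2, h4, h3, hex, add_assoc]

end Pool.Agent.H58.LK
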